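import Pool.Agent.U81.BN.Loci

/-!
# MP_eed2ef_ag, Q1: negative answer

For all `2 ≤ s < r`, `d ≥ 2 r` and `g > C(d - r + 1, 2)` the locus `M^r_{g,d}` is not empty and is
contained in `M^s_{g,e}` for `e = d - 2 (r - s)`; all the conditions of Q1 hold as soon as
`s < 2 + ⌊(r - 1) / 2⌋`.
-/

set_option autoImplicit false

namespace Pool.Agent.Results.MP_eed2ef_ag.SeriesInLargeGenus

open Pool.Agent.U81.BN

/-- For `r ≥ s + 1 ≥ 3` with `s < 2 + ⌊(r - 1) / 2⌋`, `d ≥ 2 r`, `g > C(d - r + 1, 2)` and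
`e = d - 2 (r - s)`: `d, e ≤ g - 1`, `ρ(g, r, d) < 0`, `ρ(g, s, e) < 0`, both loci are not empty,
`e < d - 2 r + 2 + s + ⌊(r - 1) / 2⌋`, and `M^r_{g,d} ⊆ M^s_{g,e}`. -/
theorem result (r s d g : ℕ) (hs : 2 ≤ s) (hr : s + 1 ≤ r) (hrs : s < 2 + (r - 1) / 2)
    (hd : 2 * r ≤ d) (hg : (d - r + 1).choose 2 < g) :
    d ≤ g - 1 ∧ d - 2 * (r - s) ≤ g - 1 ∧
      (rho g r d < 0 ∧ LocusNonempty g r d) ∧
      (rho g s (d - 2 * (r - s) : ℕ) < 0 ∧ LocusNonempty g s (d - 2 * (r - s))) ∧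
      d - 2 * (r - s) < d - 2 * r + 2 + s + (r - 1) / 2 ∧
      LocusContained g r d s (d - 2 * (r - s)) := by
  obtain ⟨h1, h2, h3, h4, h5⟩ := numbers hs hr hd hg
  exact ⟨h2, h3, ⟨h4, nonempty_general h1 hd⟩, ⟨h5, nonempty_general h1 (by omega)⟩, by omega,
    contained_general (by omega) (by omega) hd hg⟩

end Pool.Agent.Results.MP_eed2ef_ag.SeriesInLargeGenus
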